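import Pool.Agent.Helper211.ES.Defs

set_option autoImplicit false

namespace ES211

open Finset

namespace RT

variable {W : Type*}

/-- relabel -/
def rmap {W' : Type*} (f : W → W') : RT W → RT W'
  | node w => node (f w)
  | graft A B => graft (rmap f A) (rmap f B)

theorem rmap_root {W' : Type*} (f : W → W') (t : RT W) : (t.rmap f).root = f t.root := by
  induction t with
  | node w => rfl
  | graft A B _ ihB => simpa [rmap, root] using ihB

theorem rmap_size {W' : Type*} (f : W → W') (t : RT W) : (t.rmap f).size = t.size := by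
  induction t with
  | node w => rfl
  | graft A B ihA ihB => simp [rmap, size, ihA, ihB]

theorem rmap_verts {W' : Type*} [DecidableEq W] [DecidableEq W'] (f : W → W') (t : RT W) :
    (t.rmap f).verts = t.verts.image f := by
  induction t with
  | node w => simp [rmap, verts]
  | graft A B ihA ihB => simp [rmap, verts, ihA, ihB, Finset.image_union]

theorem rmap_good {W' : Type*} [DecidableEq W] [DecidableEq W'] (f : W → W')
    (hf : Function.Injective f) (t : RT W) (h : t.Good) : (t.rmap f).Good := by
  induction t with
  | node w => trivial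
  | graft A B ihA ihB =>
    obtain ⟨hA, hB, hd⟩ := h
    refine ⟨ihA hA, ihB hB, ?_⟩
    rw [rmap_verts, rmap_verts]
    exact (Finset.disjoint_image hf).2 hd

theorem rmap_edge {W' : Type*} (f : W → W') (t : RT W) (a b : W) (h : t.Edge a b) :
    (t.rmap f).Edge (f a) (f b) := by
  induction t with
  | node w => exact h.elim
  | graft A B ihA ihB =>
    rcases h with h | h | ⟨h1, h2⟩
    · exact Or.inl (ihA h)
    · exact Or.inr (Or.inl (ihB h))
    · refine Or.inr (Or.inr ⟨?_, ?_⟩)
      · rw [rmap_root, h1]
      · rw [rmap_root, h2]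

/-- add a leaf `w` at `p` -/
def addLeaf [DecidableEq W] (p w : W) : RT W → RT W
  | node r => graft (node w) (node r)
  | graft A B =>
      if p = root (graft A B) then graft (node w) (graft A B)
      else if p ∈ verts A then graft (addLeaf p w A) B else graft A (addLeaf p w B)

theorem addLeaf_root [DecidableEq W] (p w : W) (t : RT W) : (t.addLeaf p w).root = t.root := by
  induction t with
  | node r => rfl
  | graft A B ihA ihB =>
    rw [addLeaf]
    split_ifs
    · rfl
    · rfl
    · simpa [root] using ihB

theorem addLeaf_size [DecidableEq W] (p w : W) (t : RT W) :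
    (t.addLeaf p w).size = t.size + 1 := by
  induction t with
  | node r => rfl
  | graft A B ihA ihB =>
    rw [addLeaf]
    split_ifs
    · simp [size]
    · simp [size, ihA]; omega
    · simp [size, ihB]; omega

theorem addLeaf_verts [DecidableEq W] (p w : W) (t : RT W) :
    (t.addLeaf p w).verts = insert w t.verts := by
  induction t with
  | node r => simp [addLeaf, verts]
  | graft A B ihA ihB =>
    rw [addLeaf]
    split_ifs
    · ext x; simp [verts]
    · ext x; simp [verts, ihA]
    · ext x; simp [verts, ihB]

theorem addLeaf_good [DecidableEq W] (p w : W) (t : RT W) (h : t.Good) (hw : w ∉ t.verts) :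
    (t.addLeaf p w).Good := by
  induction t with
  | node r =>
    refine ⟨trivial, trivial, ?_⟩
    simpa [verts, eq_comm] using hw
  | graft A B ihA ihB =>
    obtain ⟨hA, hB, hd⟩ := h
    have hwA : w ∉ A.verts := fun h => hw (Finset.mem_union_left _ h)
    have hwB : w ∉ B.verts := fun h => hw (Finset.mem_union_right _ h)
    rw [addLeaf]
    split_ifs
    · refine ⟨trivial, ⟨hA, hB, hd⟩, ?_⟩
      simpa [verts] using ⟨hwA, hwB⟩
    · refine ⟨ihA hA hwA, hB, ?_⟩
      rw [addLeaf_verts, Finset.disjoint_insert_left]
      exact ⟨hwB, hd⟩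
    · refine ⟨hA, ihB hB hwB, ?_⟩
      rw [addLeaf_verts, Finset.disjoint_insert_right]
      exact ⟨hwA, hd⟩

theorem addLeaf_edge_old [DecidableEq W] (p w : W) (t : RT W) (a b : W) (h : t.Edge a b) :
    (t.addLeaf p w).Edge a b := by
  induction t with
  | node r => exact h.elim
  | graft A B ihA ihB =>
    rw [addLeaf]
    split_ifs
    · exact Or.inr (Or.inl h)
    · rcases h with h | h | ⟨h1, h2⟩
      · exact Or.inl (ihA h)
      · exact Or.inr (Or.inl h)
      · refine Or.inr (Or.inr ⟨h1, ?_⟩)
        rw [addLeaf_root, h2]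
    · rcases h with h | h | ⟨h1, h2⟩
      · exact Or.inl h
      · exact Or.inr (Or.inl (ihB h))
      · refine Or.inr (Or.inr ⟨?_, h2⟩)
        rw [addLeaf_root, h1]

theorem addLeaf_edge_new [DecidableEq W] (p w : W) (t : RT W) (hp : p ∈ t.verts) :
    (t.addLeaf p w).Edge p w := by
  induction t with
  | node r =>
    have : p = r := by simpa [verts] using hp
    subst this
    exact Or.inr (Or.inr ⟨rfl, rfl⟩)
  | graft A B ihA ihB =>
    rw [addLeaf]
    split_ifs with h1 h2
    · exact Or.inr (Or.inr ⟨h1, rfl⟩)
    · exact Or.inl (ihA h2)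
    · have : p ∈ B.verts := by
        rcases Finset.mem_union.1 hp with h | h
        · exact absurd h h2
        · exact h
      exact Or.inr (Or.inl (ihB this))

end RT

theorem exists_RT_aux (n : ℕ) : ∀ {W : Type*} [Fintype W] [DecidableEq W] (T : SimpleGraph W)
    (_ : T.IsTree) (_ : Fintype.card W = n + 1),
    ∃ t : RT W, t.Good ∧ t.verts = Finset.univ ∧
      (∀ a b, T.Adj a b → t.Edge a b ∨ t.Edge b a) ∧ t.size + 1 = Fintype.card W := by
  induction n with
  | zero =>
    intro W _ _ T hT hc
    obtain ⟨w, hw⟩ := Fintype.card_eq_one_iff.1 (by simpa using hc)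
    refine ⟨RT.node w, trivial, ?_, ?_, ?_⟩
    · ext x; simp [RT.verts, hw x]
    · intro a b hab
      exact absurd ((hw a).trans (hw b).symm) hab.ne
    · simp [RT.size, hc]
  | succ n ih =>
    intro W _ _ T hT hc
    classical
    have : Nontrivial W := Fintype.one_lt_card_iff_nontrivial.1 (by omega)
    obtain ⟨v, hv⟩ := hT.exists_vert_degree_one_of_nontrivial
    have hconn := hT.connected.induce_compl_singleton_of_degree_eq_one hv
    have hac := hT.isAcyclic.induce ({v}ᶜ : Set W)
    obtain ⟨p, hvp, hup⟩ := SimpleGraph.degree_eq_one_iff_existsUnique_adj.mp hv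
    have hcard : Fintype.card ({v}ᶜ : Set W) = n + 1 := by
      rw [Fintype.card_compl_set]
      simp [hc]
    obtain ⟨t, hg, hvt, he, hs⟩ := ih (T.induce ({v}ᶜ : Set W)) ⟨hconn, hac⟩ hcard
    have hverts : (t.rmap (Subtype.val : ({v}ᶜ : Set W) → W)).verts = Finset.univ.erase v := by
      rw [RT.rmap_verts, hvt]
      ext x
      simp
    refine ⟨(t.rmap (Subtype.val : ({v}ᶜ : Set W) → W)).addLeaf p v, ?_, ?_, ?_, ?_⟩
    · apply RT.addLeaf_good
      · exact RT.rmap_good _ Subtype.val_injective _ hg
      · rw [hverts]; simp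
    · rw [RT.addLeaf_verts, hverts]
      ext x
      by_cases hx : x = v <;> simp [hx]
    · intro a b hab
      have hnew : ((t.rmap (Subtype.val : ({v}ᶜ : Set W) → W)).addLeaf p v).Edge p v := by
        apply RT.addLeaf_edge_new
        rw [hverts]
        simp [hvp.ne']
      by_cases ha : a = v
      · subst ha
        have := hup b hab
        subst this
        exact Or.inr hnew
      · by_cases hb : b = v
        · subst hb
          have := hup a hab.symm
          subst this
          exact Or.inl hnew
        · rcases he ⟨a, ha⟩ ⟨b, hb⟩ hab with h | h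
          · exact Or.inl (RT.addLeaf_edge_old _ _ _ _ _ (RT.rmap_edge Subtype.val _ _ _ h))
          · exact Or.inr (RT.addLeaf_edge_old _ _ _ _ _ (RT.rmap_edge Subtype.val _ _ _ h))
    · rw [RT.addLeaf_size, RT.rmap_size, hs, hcard, hc]

theorem exists_RT {W : Type*} [Fintype W] [DecidableEq W] (T : SimpleGraph W) (hT : T.IsTree) :
    ∃ t : RT W, t.Good ∧ t.verts = Finset.univ ∧
      (∀ a b, T.Adj a b → t.Edge a b ∨ t.Edge b a) ∧ t.size + 1 = Fintype.card W := by
  have := hT.connected.nonempty
  have hpos : 0 < Fintype.card W := Fintype.card_pos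
  exact exists_RT_aux (Fintype.card W - 1) T hT (by omega)

end ES211
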