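import Pool.Agent.Helper211.ES.Pack

set_option autoImplicit false

namespace ES211

open Finset

theorem ncard_edge {V : Type*} [Fintype V] (G : SimpleGraph V) [DecidableRel G.Adj] :
    G.edgeSet.ncard = G.edgeFinset.card := by
  classical
  rw [← SimpleGraph.coe_edgeFinset, Set.ncard_coe_finset]

/-- greedy packing of copies of a tree: what is left has at most `(m-1)n/2` edges -/
theorem greedy {V W : Type*} [Fintype V] [Fintype W] (T : SimpleGraph W) (hT : T.IsTree) (m : ℕ)
    (hW : Fintype.card W = m + 1) (hm : 1 ≤ m) :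
    ∀ (N : ℕ) (G : SimpleGraph V), G.edgeSet.ncard = N →
      ∃ (k : ℕ) (f : Fin k → (W ↪ V)),
        (∀ i, T.map (f i) ≤ G) ∧ (∀ i j, i ≠ j → Disjoint (T.map (f i)) (T.map (f j))) ∧
          2 * N ≤ (m - 1) * Fintype.card V + 2 * (m * k) := by
  classical
  intro N
  induction N using Nat.strong_induction_on with
  | _ N ih =>
    intro G hG
    by_cases h : (m - 1) * Fintype.card V < 2 * N
    · have h' : (m - 1) * Fintype.card V < 2 * G.edgeFinset.card := by
        rw [← ncard_edge, hG]; exact h
      obtain ⟨g, hg⟩ := erdos_sos G m h' T hT hW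
      have hgle : T.map g ≤ G := by
        rw [SimpleGraph.map_le_iff_le_comap]
        intro a b hab
        exact hg a b hab
      have hTm : T.edgeSet.ncard = m := by
        rw [ncard_edge]
        have := hT.card_edgeFinset
        omega
      have hgc : (T.map g).edgeSet.ncard = m := by
        have h1 : (T.map g).edgeSet = g.sym2Map '' T.edgeSet := SimpleGraph.edgeSet_map g T
        rw [h1, Set.ncard_image_of_injective _ g.sym2Map.injective, hTm]
      have hsub : (T.map g).edgeSet ⊆ G.edgeSet := SimpleGraph.edgeSet_mono hgle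
      have hNm : (G \ T.map g).edgeSet.ncard = N - m := by
        rw [SimpleGraph.edgeSet_sdiff, Set.ncard_sdiff hsub (Set.toFinite _), hG, hgc]
      have hmN : m ≤ N := by
        rw [← hG, ← hgc]
        exact Set.ncard_le_ncard hsub (Set.toFinite _)
      obtain ⟨k, f, h1, h2, h3⟩ := ih (N - m) (by omega) (G \ T.map g) hNm
      have hdis : ∀ i, Disjoint (T.map g) (T.map (f i)) := fun i =>
        (Disjoint.mono_left (h1 i) disjoint_sdiff_self_left).symm
      refine ⟨k + 1, Fin.cons g f, ?_, ?_, ?_⟩
      · intro i
        refine Fin.cases ?_ (fun i => ?_) i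
        · simpa using hgle
        · simpa using (h1 i).trans sdiff_le
      · intro i j
        refine Fin.cases ?_ (fun i => ?_) i
        · refine Fin.cases ?_ (fun j => ?_) j
          · intro hh; exact absurd rfl hh
          · intro _; simpa using hdis j
        · refine Fin.cases ?_ (fun j => ?_) j
          · intro _; simpa using (hdis i).symm
          · intro hh
            have hij : i ≠ j := fun e => hh (by rw [e])
            simpa using h2 i j hij
      · have : m * (k + 1) = m * k + m := by ring
        rw [this]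
        omega
    · exact ⟨0, Fin.elim0, fun i => i.elim0, fun i => i.elim0, by omega⟩

/-- every `2m`-regular graph contains at least `(m+1)n/(2m)` edge-disjoint copies of each tree with
`m` edges -/
theorem half_decomposition {V W : Type*} [Fintype V] [Fintype W] (T : SimpleGraph W)
    (hT : T.IsTree) (G : SimpleGraph V) [DecidableRel G.Adj]
    (hG : G.IsRegularOfDegree (2 * T.edgeSet.ncard)) (hm : T.edgeSet.ncard ≠ 0) :
    ∃ (k : ℕ) (f : Fin k → (W ↪ V)),
      (∀ i, T.map (f i) ≤ G) ∧ (∀ i j, i ≠ j → Disjoint (T.map (f i)) (T.map (f j))) ∧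
        (T.edgeSet.ncard + 1) * Fintype.card V ≤ 2 * T.edgeSet.ncard * k := by
  classical
  obtain ⟨m, hmm⟩ : ∃ m, T.edgeSet.ncard = m + 1 := ⟨T.edgeSet.ncard - 1, by omega⟩
  have hW : Fintype.card W = (m + 1) + 1 := by
    have h1 := hT.card_edgeFinset
    have h2 := ncard_edge T
    omega
  obtain ⟨k, f, h1, h2, h3⟩ := greedy T hT (m + 1) hW (by omega) _ G rfl
  refine ⟨k, f, h1, h2, ?_⟩
  have h4 : 2 * G.edgeSet.ncard = Fintype.card V * (2 * (m + 1)) := by
    rw [ncard_edge, ← G.sum_degrees_eq_twice_card_edges]
    rw [Finset.sum_congr rfl (fun v _ => by rw [hG v, hmm]), Finset.sum_const, Finset.card_univ,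
      smul_eq_mul]
  rw [hmm]
  rw [h4] at h3
  simp only [Nat.add_sub_cancel] at h3
  nlinarith

end ES211
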