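import Pool.Agent.Helper211.ES.Main

set_option autoImplicit false

namespace ES211

open Finset

/-- number of edges of a mapped tree -/
theorem map_tree_card {m n : ℕ} (T : SimpleGraph (Fin (m + 2))) (hT : T.IsTree)
    (f : Fin (m + 2) ↪ Fin n) : (T.map f).edgeSet.ncard = m + 1 := by
  classical
  have h1 : (T.map f).edgeSet = f.sym2Map '' T.edgeSet := SimpleGraph.edgeSet_map f T
  rw [h1, Set.ncard_image_of_injective _ f.sym2Map.injective]
  have h2 := hT.card_edgeFinset
  rw [Fintype.card_fin] at h2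
  have h3 : T.edgeSet.ncard = T.edgeFinset.card := by
    rw [← SimpleGraph.coe_edgeFinset, Set.ncard_coe_finset]
  omega

/-- number of edges of the complement -/
theorem compl_card {n : ℕ} (H : SimpleGraph (Fin n)) [DecidableRel Hᶜ.Adj] :
    n * (n - 1) = 2 * H.edgeSet.ncard + 2 * (Hᶜ).edgeFinset.card := by
  classical
  have h1 : (⊤ : SimpleGraph (Fin n)).edgeFinset.card = n.choose 2 := by
    rw [SimpleGraph.card_edgeFinset_top_eq_card_choose_two, Fintype.card_fin]
  have h2 : H.edgeFinset.card + (Hᶜ).edgeFinset.card = n.choose 2 := by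
    have h3 : Disjoint H.edgeFinset (Hᶜ).edgeFinset := by
      rw [SimpleGraph.disjoint_edgeFinset]
      exact disjoint_compl_right
    rw [← Finset.card_union_of_disjoint h3, ← h1]
    congr 1
    ext e
    rw [Finset.mem_union, SimpleGraph.mem_edgeFinset, SimpleGraph.mem_edgeFinset,
      SimpleGraph.mem_edgeFinset]
    induction e using Sym2.ind with
    | _ a b =>
      simp only [SimpleGraph.mem_edgeSet, SimpleGraph.compl_adj, SimpleGraph.top_adj]
      constructor
      · rintro (h | h)
        · exact h.ne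
        · exact h.1
      · intro h
        by_cases hh : H.Adj a b
        · exact Or.inl hh
        · exact Or.inr ⟨h, hh⟩
  have h4 : H.edgeSet.ncard = H.edgeFinset.card := by
    rw [← SimpleGraph.coe_edgeFinset, Set.ncard_coe_finset]
  have h5 : n * (n - 1) = 2 * n.choose 2 := by
    rw [Nat.choose_two_right]
    exact (Nat.mul_div_cancel' (Nat.even_mul_pred_self n).two_dvd).symm
  rw [h4, h5]
  omega

/-- `∑_{k < i < s} (i+1)` times two -/
theorem sum_bound (s k : ℕ) (hk : k < s) :
    2 * ∑ i ∈ univ.filter (fun i : Fin s => k + 1 ≤ (i : ℕ)), ((i : ℕ) + 1) + (k + 1) * (k + 2)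
      = s * (s + 1) := by
  have h1 : ∑ i ∈ univ.filter (fun i : Fin s => k + 1 ≤ (i : ℕ)), ((i : ℕ) + 1)
      = ∑ i ∈ (range s).filter (fun i => k + 1 ≤ i), (i + 1) := by
    rw [Finset.sum_filter, Finset.sum_filter, Finset.sum_range]
  have h2 : (∑ i ∈ (range s).filter (fun i => k + 1 ≤ i), (i + 1))
      + ∑ i ∈ range (k + 1), (i + 1) = ∑ i ∈ range s, (i + 1) := by
    rw [← Finset.sum_filter_add_sum_filter_not (range s) (fun i => k + 1 ≤ i)]
    congr 1
    apply Finset.sum_congr _ (fun _ _ => rfl)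
    ext i
    simp only [mem_range, mem_filter]
    omega
  have h3 : ∀ m : ℕ, 2 * ∑ i ∈ range m, (i + 1) = m * (m + 1) := by
    intro m
    induction m with
    | zero => simp
    | succ m ih => rw [Finset.sum_range_succ, mul_add, ih]; ring
  have h4 := h3 s
  have h5 := h3 (k + 1)
  rw [h1]
  rw [← h4, ← h2]
  nlinarith [h5]

/-- the greedy packing -/
theorem pack_aux {n s : ℕ} (h : (2 * s + 1) ^ 2 < 3 * n ^ 2 + 2 * n)
    (T : (i : Fin s) → SimpleGraph (Fin ((i : ℕ) + 2))) (hT : ∀ i, (T i).IsTree) :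
    ∀ m k : ℕ, m + k = s → ∃ f : (i : Fin s) → (Fin ((i : ℕ) + 2) ↪ Fin n),
      ∀ i j : Fin s, k ≤ (i : ℕ) → k ≤ (j : ℕ) → i ≠ j →
        Disjoint ((T i).map (f i)) ((T j).map (f j)) := by
  classical
  have hsn : s + 1 ≤ n := by
    by_contra hc
    have : n ≤ s := by omega
    nlinarith
  intro m
  induction m with
  | zero =>
    intro k hk
    refine ⟨fun i => Fin.castLEEmb (by have := i.2; omega), fun i j hi => ?_⟩
    have := i.2
    omega
  | succ m ih =>
    intro k hk
    obtain ⟨f, hf⟩ := ih (k + 1) (by omega)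
    have hks : k < s := by omega
    set I : Finset (Fin s) := univ.filter (fun i : Fin s => k + 1 ≤ (i : ℕ)) with hI
    let H : SimpleGraph (Fin n) := I.sup (fun i => (T i).map (f i))
    have hle : ∀ i ∈ I, (T i).map (f i) ≤ H := fun i hi =>
      Finset.le_sup (f := fun i => (T i).map (f i)) hi
    have hHc : H.edgeSet.ncard ≤ ∑ i ∈ I, ((i : ℕ) + 1) := by
      have : ∀ J : Finset (Fin s),
          (J.sup (fun i => (T i).map (f i))).edgeSet.ncard ≤ ∑ i ∈ J, ((i : ℕ) + 1) := by
        intro J
        induction J using Finset.induction_on with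
        | empty => simp
        | insert a J ha ihJ =>
          rw [Finset.sup_insert, Finset.sum_insert ha, SimpleGraph.edgeSet_sup]
          refine (Set.ncard_union_le _ _).trans ?_
          rw [map_tree_card (T a) (hT a)]
          omega
      exact this I
    have hc := compl_card H
    have hs : 2 * ∑ i ∈ I, ((i : ℕ) + 1) + (k + 1) * (k + 2) = s * (s + 1) := by
      rw [← sum_bound s k hks, hI]
    have hcard : ((k + 1) - 1) * Fintype.card (Fin n) < 2 * (Hᶜ).edgeFinset.card := by
      rw [Fintype.card_fin, Nat.add_sub_cancel]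
      obtain ⟨p, hp⟩ : ∃ p, n = p + 1 := ⟨n - 1, by omega⟩
      have hp' : n * (n - 1) = (p + 1) * p := by rw [hp, Nat.add_sub_cancel]
      rw [hp'] at hc
      have h6 : 2 * H.edgeSet.ncard + (k + 1) * (k + 2) ≤ s * (s + 1) := by
        have := Nat.mul_le_mul_left 2 hHc
        rw [← hs]
        exact Nat.add_le_add_right this _
      have h7 : k * n + 2 * H.edgeSet.ncard < (p + 1) * p := by
        have h8 : k * n + s * (s + 1) < (p + 1) * p + (k + 1) * (k + 2) := by
          rw [hp] at h ⊢
          have key : (0 : ℤ) ≤ (p - 2 * (k : ℤ) - 2) ^ 2 := sq_nonneg _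
          zify at h ⊢
          nlinarith
        omega
      omega
    obtain ⟨g, hg⟩ := erdos_sos (Hᶜ) (k + 1) hcard (T ⟨k, hks⟩) (hT ⟨k, hks⟩) (by simp)
    have hgle : (T ⟨k, hks⟩).map g ≤ Hᶜ := by
      rw [SimpleGraph.map_le_iff_le_comap]
      intro a b hab
      exact hg a b hab
    refine ⟨Function.update f ⟨k, hks⟩ g, ?_⟩
    have hupd : ∀ i : Fin s, k + 1 ≤ (i : ℕ) → Function.update f ⟨k, hks⟩ g i = f i := by
      intro i hi
      apply Function.update_of_ne
      rintro rfl
      simp at hi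
    have hself : Function.update f ⟨k, hks⟩ g ⟨k, hks⟩ = g := Function.update_self _ _ _
    intro i j hi hj hij
    rcases Nat.lt_or_ge k (i : ℕ) with hi' | hi'
    · rcases Nat.lt_or_ge k (j : ℕ) with hj' | hj'
      · rw [hupd i hi', hupd j hj']
        exact hf i j hi' hj' hij
      · have hjk : j = ⟨k, hks⟩ := Fin.ext (by simp; omega)
        subst hjk
        rw [hupd i hi', hself]
        have : i ∈ I := by simp [hI]; omega
        exact (Disjoint.mono (hle i this) hgle disjoint_compl_right)
    · have hik : i = ⟨k, hks⟩ := Fin.ext (by simp; omega)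
      subst hik
      have hj' : k + 1 ≤ (j : ℕ) := by
        rcases Nat.lt_or_ge k (j : ℕ) with h1 | h1
        · exact h1
        · exact absurd (Fin.ext (by simp; omega)) hij
      rw [hupd j hj', hself]
      have : j ∈ I := by simp [hI]; omega
      exact (Disjoint.mono (hle j this) hgle disjoint_compl_right).symm

/-- The `s` smallest trees of a Gyárfás–Lehel sequence pack, if `(2s+1)^2 < 3n^2 + 2n`. -/
theorem pack {n s : ℕ} (h : (2 * s + 1) ^ 2 < 3 * n ^ 2 + 2 * n)
    (T : (i : Fin s) → SimpleGraph (Fin ((i : ℕ) + 2))) (hT : ∀ i, (T i).IsTree) :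
    ∃ f : (i : Fin s) → (Fin ((i : ℕ) + 2) ↪ Fin n),
      ∀ i j : Fin s, i ≠ j → Disjoint ((T i).map (f i)) ((T j).map (f j)) := by
  obtain ⟨f, hf⟩ := pack_aux h T hT s 0 (by omega)
  exact ⟨f, fun i j hij => hf i j (Nat.zero_le _) (Nat.zero_le _) hij⟩

end ES211
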